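import Pool.Agent.H601R2.MEE.Final

/-!
# Minimum equivalent expression is `Σ₂ᵖ`-complete under many-one reductions

`MinEquivExpr` is the decision problem: given a Boolean expression `x` over `¬`, `∧`, `∨` and a
number `K` in binary, is there an equivalent expression with at most `K` literal occurrences?
It is complete for `Σ₂ᵖ` with respect to polynomial-time many-one reductions.

The reduction starts from the problem `∃ e ∀ u ¬ψ(e, u)`, `ψ` in conjunctive normal form.  It builds
a formula `N` in which every literal occurs exactly once and is essential, so that `N` is optimal
for all weights of the variables, and which certifies: if the variables `x_i`, indexed by the
existential literals `i`, are not all true, then the set `Z` of the `i` with `x_i` false either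
contains two complementary literals or some `u` satisfies all clauses not containing a literal of
`Z`.  The instance is `N ∧ (z ∨ (w ∧ ⋀ x_i))`, where all variables but the `x_i` are heavy, that is,
replaced by conjunctions of many copies.  In a light formula for this function, `z` and `w` occur
once; looking at their last common ancestor one sees that the branch of `w` can be cut off, leaving
a formula for `z ∧ N`, and so contains few leaves besides `w`, whose indices must hit all sets `Z`.
-/

namespace Pool.Agent.Results.MP_491c4a_lc.MEEComplete

open Pool.Agent.NPC Pool.Agent.NPC.MEE

/-- **Minimum equivalent expression is `Σ₂ᵖ`-complete** with respect to polynomial-time many-one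
reductions. -/
theorem result : Sigma2Complete (lang MinEquivExpr) := sigma2Complete_MEE

end Pool.Agent.Results.MP_491c4a_lc.MEEComplete
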